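import Mathlib

namespace Pool.Agent.X286.Co
open Module Submodule

theorem finSub (K V : Type*) [Field K] [AddCommGroup V] [Module K V] [Finite V] :
    Finite (Submodule K V) :=
  Finite.of_injective (fun C => (C : Set V)) SetLike.coe_injective

attribute [local instance] finSub

section
variable {K V : Type*} [Field K] [Fintype K] [AddCommGroup V] [Module K V] [Finite V]

omit [Fintype K] in
theorem span_eq (k : ℕ) (C : Submodule K V) (hC : finrank K C = k) (w : Fin k → C)
    (hw : LinearIndependent K w) : span K (Set.range fun i => (w i : V)) = C := by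
  have h1 : LinearIndependent K (fun i => (w i : V)) := hw.map' C.subtype (ker_subtype _)
  apply eq_of_le_of_finrank_eq
  · rw [span_le]
    rintro _ ⟨i, rfl⟩
    exact (w i).2
  · rw [finrank_span_eq_card h1, hC, Fintype.card_fin]

/-- The Gaussian count of `k`-dimensional subspaces. -/
theorem gauss (k : ℕ) (hk : k ≤ finrank K V) :
    Nat.card {C : Submodule K V // finrank K C = k} *
        ∏ i : Fin k, ((Fintype.card K)^k - (Fintype.card K)^(i:ℕ)) =
      ∏ i : Fin k, ((Fintype.card K)^(finrank K V) - (Fintype.card K)^(i:ℕ)) := by
  classical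
  rw [← card_linearIndependent (K := K) (V := V) hk]
  let f : (Σ C : {C : Submodule K V // finrank K C = k},
      {w : Fin k → C.1 // LinearIndependent K w}) → {s : Fin k → V // LinearIndependent K s} :=
    fun p => ⟨fun i => (p.2.1 i : V), p.2.2.map' p.1.1.subtype (ker_subtype _)⟩
  have hf : Function.Bijective f := by
    constructor
    · rintro ⟨⟨C, hC⟩, ⟨w, hw⟩⟩ ⟨⟨C', hC'⟩, ⟨w', hw'⟩⟩ h
      have h0 : (fun i => (w i : V)) = (fun i => (w' i : V)) := congrArg Subtype.val h
      have h1 := span_eq k C hC w hw
      have h2 := span_eq k C' hC' w' hw'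
      rw [h0, h2] at h1
      subst h1
      have h3 : w = w' := by
        funext i
        exact Subtype.ext (congrFun h0 i)
      subst h3
      rfl
    · rintro ⟨s, hs⟩
      have hli : LinearIndependent K
          (fun i => (⟨s i, subset_span ⟨i, rfl⟩⟩ : span K (Set.range s))) := by
        apply LinearIndependent.of_comp (span K (Set.range s)).subtype
        exact hs
      refine ⟨⟨⟨span K (Set.range s), ?_⟩, ⟨fun i => ⟨s i, subset_span ⟨i, rfl⟩⟩, hli⟩⟩, rfl⟩
      rw [finrank_span_eq_card hs, Fintype.card_fin]
  have : Fintype {C : Submodule K V // finrank K C = k} := Fintype.ofFinite _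
  rw [← Nat.card_congr (Equiv.ofBijective f hf), Nat.card_sigma]
  have h2 : ∀ C : {C : Submodule K V // finrank K C = k},
      Nat.card {w : Fin k → C.1 // LinearIndependent K w} =
        ∏ i : Fin k, ((Fintype.card K)^k - (Fintype.card K)^(i:ℕ)) := fun C => by
    have := card_linearIndependent (K := K) (V := C.1) (k := k) (by rw [C.2])
    rwa [C.2] at this
  simp only [h2, Finset.sum_const, smul_eq_mul, Finset.card_univ, Nat.card_eq_fintype_card]

theorem one_lt_q : 1 < Fintype.card K := Fintype.one_lt_card

/-- few `k`-subspaces inside a subspace of codimension at least `s`. -/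
theorem G2 (k s : ℕ) (W : Submodule K V) (hs : finrank K W + s ≤ finrank K V) :
    Nat.card {C : Submodule K V // finrank K C = k ∧ C ≤ W} * (Fintype.card K)^(s * k) ≤
      Nat.card {C : Submodule K V // finrank K C = k} := by
  classical
  set q := Fintype.card K with hq
  have hq1 : 1 < q := one_lt_q
  by_cases hkw : k ≤ finrank K W
  · have e : Nat.card {C : Submodule K V // finrank K C = k ∧ C ≤ W} ≤
        Nat.card {C : Submodule K W // finrank K C = k} := by
      refine Nat.card_le_card_of_injective (fun C => ⟨C.1.comap W.subtype, ?_⟩) ?_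
      · rw [(Submodule.comapSubtypeEquivOfLe C.2.2).finrank_eq]
        exact C.2.1
      · intro C C' h
        have h' : C.1.comap W.subtype = C'.1.comap W.subtype := congrArg Subtype.val h
        have h2 := congrArg (map W.subtype) h'
        rw [map_comap_subtype, map_comap_subtype, inf_eq_right.2 C.2.2, inf_eq_right.2 C'.2.2] at h2
        exact Subtype.ext h2
    refine (Nat.mul_le_mul_right _ e).trans ?_
    have g1 := gauss (K := K) (V := W) k hkw
    have g2 := gauss (K := K) (V := V) k (by omega)
    rw [← hq] at g1 g2
    have hpos : 0 < ∏ i : Fin k, (q^k - q^(i:ℕ)) := by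
      apply Finset.prod_pos
      intro i _
      have : q^(i:ℕ) < q^k := Nat.pow_lt_pow_right hq1 i.2
      omega
    have key : (∏ i : Fin k, (q^(finrank K W) - q^(i:ℕ))) * q^(s*k) ≤
        ∏ i : Fin k, (q^(finrank K V) - q^(i:ℕ)) := by
      have : q^(s*k) = ∏ i : Fin k, q^s := by
        simp [Finset.prod_const, pow_mul]
      rw [this, ← Finset.prod_mul_distrib]
      apply Finset.prod_le_prod'
      intro i _
      rw [Nat.sub_mul, ← pow_add]
      have h1 : q^(finrank K W + s) ≤ q^(finrank K V) := Nat.pow_le_pow_right (by omega) hs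
      have h2 : q^(i:ℕ) ≤ q^(i:ℕ) * q^s := Nat.le_mul_of_pos_right _ (pow_pos (by omega) _)
      omega
    rw [← g1, ← g2] at key
    refine Nat.le_of_mul_le_mul_right ?_ hpos
    calc _ = _ := by ring
      _ ≤ _ := key
  · have : Nat.card {C : Submodule K V // finrank K C = k ∧ C ≤ W} = 0 := by
      rw [Nat.card_eq_zero]
      left
      refine ⟨fun C => hkw ?_⟩
      rw [← C.2.1]
      exact Submodule.finrank_mono C.2.2
    rw [this]
    simp

/-- few `k`-subspaces contain a given subspace of dimension at least `s`. -/
theorem G1 (k s : ℕ) (hk : k ≤ finrank K V) (U : Submodule K V) (hs : s ≤ finrank K U) :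
    Nat.card {C : Submodule K V // finrank K C = k ∧ U ≤ C} *
        (Fintype.card K)^(s * (finrank K V - k)) ≤
      Nat.card {C : Submodule K V // finrank K C = k} := by
  classical
  have : Finite (Dual K V) := Module.finite_of_finite K
  have hd : ∀ C : Submodule K V, finrank K C + finrank K C.dualAnnihilator = finrank K V :=
    fun C => Subspace.finrank_add_finrank_dualAnnihilator_eq C
  have hdV : finrank K (Dual K V) = finrank K V := Subspace.dual_finrank_eq
  have h1 := G2 (K := K) (V := Dual K V) (finrank K V - k) s U.dualAnnihilator (by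
    have := hd U
    omega)
  have h2 : Nat.card {C : Submodule K V // finrank K C = k ∧ U ≤ C} ≤
      Nat.card {C : Submodule K (Dual K V) // finrank K C = finrank K V - k ∧
        C ≤ U.dualAnnihilator} := by
    refine Nat.card_le_card_of_injective (fun C => ⟨C.1.dualAnnihilator, ?_, ?_⟩) ?_
    · have := hd C.1
      have := C.2.1
      omega
    · exact dualAnnihilator_anti C.2.2
    · intro C C' h
      exact Subtype.ext (Subspace.dualAnnihilator_inj.1 (congrArg Subtype.val h))
  have h3 : Nat.card {C : Submodule K (Dual K V) // finrank K C = finrank K V - k} ≤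
      Nat.card {C : Submodule K V // finrank K C = k} := by
    refine Nat.card_le_card_of_injective (fun C => ⟨C.1.dualCoannihilator, ?_⟩) ?_
    · have := Subspace.finrank_add_finrank_dualCoannihilator_eq C.1
      have := C.2
      omega
    · intro C C' h
      have h' : C.1.dualCoannihilator = C'.1.dualCoannihilator := congrArg Subtype.val h
      apply Subtype.ext
      rw [← Subspace.dualCoannihilator_dualAnnihilator_eq (W := C.1), h',
        Subspace.dualCoannihilator_dualAnnihilator_eq]
  calc _ ≤ _ := Nat.mul_le_mul_right _ h2
    _ ≤ _ := h1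
    _ ≤ _ := h3

end

end Pool.Agent.X286.Co
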