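import Pool.Agent.X286.Co.Gr

namespace Pool.Agent.X286.Co
open Module Submodule

attribute [local instance] finSub

section
variable {K V : Type*} [Field K] [Fintype K] [AddCommGroup V] [Module K V] [Finite V]

omit [Fintype K] in
theorem comap_dim (T : V →ₗ[K] V) (U : Submodule K V) :
    finrank K (U.comap T) ≤ finrank K (LinearMap.ker T) + finrank K U := by
  let f : U.comap T →ₗ[K] U := (T.domRestrict (U.comap T)).codRestrict U (fun x => x.2)
  have h := LinearMap.finrank_range_add_finrank_ker f
  have h1 : finrank K (LinearMap.range f) ≤ finrank K U := Submodule.finrank_le _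
  have h2 : finrank K (LinearMap.ker f) ≤ finrank K (LinearMap.ker T) := by
    let g : LinearMap.ker f →ₗ[K] LinearMap.ker T :=
      ((U.comap T).subtype.comp (LinearMap.ker f).subtype).codRestrict _ (fun x => by
        have := congrArg Subtype.val (LinearMap.mem_ker.1 x.2)
        rw [LinearMap.mem_ker]
        exact this)
    apply LinearMap.finrank_le_finrank_of_injective (f := g)
    intro x y hxy
    have := congrArg Subtype.val hxy
    exact Subtype.ext (Subtype.ext this)
  omega

theorem comap_card (T : V →ₗ[K] V) (U : Submodule K V) :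
    Nat.card (U.comap T) ≤ Nat.card (LinearMap.ker T) * Nat.card U := by
  rw [Module.natCard_eq_pow_finrank (K := K) (V := U.comap T),
    Module.natCard_eq_pow_finrank (K := K) (V := LinearMap.ker T),
    Module.natCard_eq_pow_finrank (K := K) (V := U), ← pow_add]
  exact Nat.pow_le_pow_right Nat.card_pos (comap_dim T U)

theorem numSub (X : Submodule K V) : Nat.card {W : Submodule K V // W ≤ X} ≤
    (Fintype.card K)^(finrank K X * finrank K X) := by
  have h1 : Nat.card (X →ₗ[K] X) = (Fintype.card K)^(finrank K X * finrank K X) := by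
    rw [Module.natCard_eq_pow_finrank (K := K), Module.finrank_linearMap, Nat.card_eq_fintype_card]
  have : Finite (X →ₗ[K] X) := Module.finite_of_finite K
  rw [← h1]
  apply Nat.card_le_card_of_surjective (fun f : X →ₗ[K] X =>
    (⟨(LinearMap.range f).map X.subtype, map_subtype_le _ _⟩ : {W // W ≤ X}))
  rintro ⟨W, hW⟩
  obtain ⟨g, hg⟩ := LinearMap.exists_leftInverse_of_injective (Submodule.inclusion hW)
    (ker_inclusion _ _ hW)
  refine ⟨(Submodule.inclusion hW).comp g, Subtype.ext ?_⟩
  show map X.subtype (LinearMap.range ((Submodule.inclusion hW).comp g)) = W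
  have hg' : LinearMap.range g = ⊤ := by
    rw [LinearMap.range_eq_top]
    intro w
    exact ⟨Submodule.inclusion hW w, by
      have := LinearMap.congr_fun hg w
      simpa using this⟩
  rw [LinearMap.range_comp, hg', Submodule.map_top, ← LinearMap.range_comp]
  ext x
  constructor
  · rintro ⟨y, rfl⟩
    exact y.2
  · intro hx
    exact ⟨⟨x, hx⟩, rfl⟩

/-- Codes invariant under a map of small rank. -/
theorem abound (k s κ : ℕ) (T : V →ₗ[K] V)
    (hs : 2 * s ≤ finrank K (LinearMap.range T) + 1) (hκ1 : κ ≤ k)
    (hκ2 : κ + k ≤ finrank K V) :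
    Nat.card {C : Submodule K V // finrank K C = k ∧ C.map T ≤ C} * (Fintype.card K)^(κ * s) ≤
      (Fintype.card K)^(finrank K (LinearMap.range T) * finrank K (LinearMap.range T)) *
        Nat.card {C : Submodule K V // finrank K C = k} := by
  classical
  set q := Fintype.card K with hq
  have hq1 : 1 < q := one_lt_q
  have hrn := LinearMap.finrank_range_add_finrank_ker T
  set X := LinearMap.range T with hX
  let P : Submodule K V → Submodule K V → Prop := fun W C =>
    finrank K C = k ∧ (s ≤ finrank K W ∧ W ≤ C ∨ finrank K W < s ∧ C ≤ W.comap T)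
  have : Fintype {W : Submodule K V // W ≤ X} := Fintype.ofFinite _
  have h1 : Nat.card {C : Submodule K V // finrank K C = k ∧ C.map T ≤ C} ≤
      ∑ W : {W : Submodule K V // W ≤ X}, Nat.card {C : Submodule K V // P W.1 C} := by
    rw [← Nat.card_sigma]
    refine Nat.card_le_card_of_injective (fun C => ⟨⟨C.1 ⊓ X, inf_le_right⟩, ⟨C.1, C.2.1, ?_⟩⟩) ?_
    · rcases le_or_gt s (finrank K (C.1 ⊓ X : Submodule K V)) with h | h
      · exact Or.inl ⟨h, inf_le_left⟩
      · refine Or.inr ⟨h, fun c hc => ?_⟩
        exact ⟨C.2.2 ⟨c, hc, rfl⟩, ⟨c, rfl⟩⟩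
    · intro C C' h
      have h1 := (Sigma.mk.inj_iff.1 h).1
      have h2 := (Sigma.mk.inj_iff.1 h).2
      apply Subtype.ext
      have h3 : C.1 ⊓ X = C'.1 ⊓ X := congrArg Subtype.val h1
      have key : ∀ (W W' : {W : Submodule K V // W ≤ X}) (a : {C : Submodule K V // P W.1 C})
          (b : {C : Submodule K V // P W'.1 C}), W = W' → HEq a b → a.1 = b.1 := by
        intro W W' a b h h'
        subst h
        rw [eq_of_heq h']
      exact key _ _ _ _ h1 h2
  have h2 : ∀ W : {W : Submodule K V // W ≤ X},
      Nat.card {C : Submodule K V // P W.1 C} * q^(κ*s) ≤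
        Nat.card {C : Submodule K V // finrank K C = k} := by
    rintro ⟨W, hW⟩
    rcases le_or_gt s (finrank K W) with h | h
    · have e1 : Nat.card {C : Submodule K V // P W C} ≤
          Nat.card {C : Submodule K V // finrank K C = k ∧ W ≤ C} := by
        refine Nat.card_le_card_of_injective (fun C => ⟨C.1, C.2.1, ?_⟩) ?_
        · rcases C.2.2 with h' | h'
          · exact h'.2
          · omega
        · intro C C' h
          exact Subtype.ext (Subtype.mk.inj h)
      refine le_trans ?_ (G1 (K := K) k s (by omega) W h)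
      apply Nat.mul_le_mul e1
      apply Nat.pow_le_pow_right (by omega)
      rw [mul_comm]
      exact Nat.mul_le_mul_left _ (by omega)
    · have e1 : Nat.card {C : Submodule K V // P W C} ≤
          Nat.card {C : Submodule K V // finrank K C = k ∧ C ≤ W.comap T} := by
        refine Nat.card_le_card_of_injective (fun C => ⟨C.1, C.2.1, ?_⟩) ?_
        · rcases C.2.2 with h' | h'
          · omega
          · exact h'.2
        · intro C C' h
          exact Subtype.ext (Subtype.mk.inj h)
      refine le_trans ?_ (G2 (K := K) k s (W.comap T) (by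
        have := comap_dim T W
        omega))
      apply Nat.mul_le_mul e1
      apply Nat.pow_le_pow_right (by omega)
      rw [mul_comm]
      exact Nat.mul_le_mul_left _ (by omega)
  calc _ ≤ (∑ W : {W : Submodule K V // W ≤ X}, Nat.card {C : Submodule K V // P W.1 C}) *
        q^(κ*s) := Nat.mul_le_mul_right _ h1
    _ = ∑ W : {W : Submodule K V // W ≤ X}, Nat.card {C : Submodule K V // P W.1 C} *
        q^(κ*s) := by rw [Finset.sum_mul]
    _ ≤ ∑ W : {W : Submodule K V // W ≤ X}, Nat.card {C : Submodule K V // finrank K C = k} :=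
        Finset.sum_le_sum fun W _ => h2 W
    _ = Nat.card {W : Submodule K V // W ≤ X} *
        Nat.card {C : Submodule K V // finrank K C = k} := by
        rw [Finset.sum_const, smul_eq_mul, Nat.card_eq_fintype_card
          (α := {W : Submodule K V // W ≤ X}), Finset.card_univ]
    _ ≤ _ := Nat.mul_le_mul_right _ (numSub X)

/-- number of invariant codes containing a given subspace -/
noncomputable def NN (k : ℕ) (φ : V →ₗ[K] V) (U : Submodule K V) : ℕ :=
  Nat.card {C : Submodule K V // finrank K C = k ∧ C.map φ ≤ C ∧ U ≤ C}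

theorem dbl [Fintype V] (k : ℕ) (φ : V →ₗ[K] V) (U : Submodule K V) :
    NN k φ U * (Fintype.card K)^k ≤ ∑ c : V, NN k φ (U ⊔ span K {c} ⊔ span K {φ c}) := by
  classical
  have : Fintype {C : Submodule K V // finrank K C = k ∧ C.map φ ≤ C ∧ U ≤ C} :=
    Fintype.ofFinite _
  have h1 : Nat.card (Σ C : {C : Submodule K V // finrank K C = k ∧ C.map φ ≤ C ∧ U ≤ C}, C.1) =
      NN k φ U * (Fintype.card K)^k := by
    rw [Nat.card_sigma]
    have : ∀ C : {C : Submodule K V // finrank K C = k ∧ C.map φ ≤ C ∧ U ≤ C},
        Nat.card C.1 = (Fintype.card K)^k := fun C => by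
      rw [Module.natCard_eq_pow_finrank (K := K), C.2.1, Nat.card_eq_fintype_card]
    simp only [this, Finset.sum_const, smul_eq_mul, Finset.card_univ]
    rw [NN, Nat.card_eq_fintype_card]
  rw [← h1]
  unfold NN
  rw [← Nat.card_sigma]
  refine Nat.card_le_card_of_injective (fun p => ⟨p.2.1, ⟨p.1.1, p.1.2.1, p.1.2.2.1, ?_⟩⟩) ?_
  · refine sup_le (sup_le p.1.2.2.2 ?_) ?_
    · rw [span_le, Set.singleton_subset_iff]
      exact p.2.2
    · rw [span_le, Set.singleton_subset_iff]
      exact p.1.2.2.1 ⟨p.2.1, p.2.2, rfl⟩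
  · rintro ⟨⟨C, hC⟩, ⟨c, hc⟩⟩ ⟨⟨C', hC'⟩, ⟨c', hc'⟩⟩ h
    have h1 : c = c' := (Sigma.mk.inj_iff.1 h).1
    have h2 := (Sigma.mk.inj_iff.1 h).2
    subst h1
    have h3 : C = C' := congrArg Subtype.val (eq_of_heq h2)
    subst h3
    rfl

omit [Fintype K] in
theorem dimUp1 (U : Submodule K V) (c : V) :
    finrank K (U ⊔ span K {c} : Submodule K V) ≤ finrank K U + 1 := by
  have h := Submodule.finrank_add_le_finrank_add_finrank U (span K {c})
  have h2 : finrank K (span K {c}) ≤ 1 := by
    have := finrank_span_le_card (R := K) ({c} : Set V)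
    simpa using this
  omega

omit [Fintype K] in
theorem dimLt (U : Submodule K V) (c : V) (hc : c ∉ U) :
    finrank K U + 1 ≤ finrank K (U ⊔ span K {c} : Submodule K V) := by
  apply Submodule.finrank_lt_finrank_of_lt
  refine lt_of_le_of_ne le_sup_left fun h => hc ?_
  rw [h]
  exact le_sup_right (a := U) (subset_span (Set.mem_singleton c))

/-- `φ - a` -/
def sh (φ : V →ₗ[K] V) (a : K) : V →ₗ[K] V := φ - a • LinearMap.id

theorem bbound [Fintype V] (k : ℕ) (φ : V →ₗ[K] V) (κ : ℝ)
    (hκ : ∀ c : K, (Nat.card (LinearMap.ker (sh φ c)) : ℝ) ≤ κ) (D : ℕ)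
    (G Q B : ℝ) (hG0 : 0 ≤ G) (hB0 : 0 ≤ B) (hQ0 : 0 < Q) (hQ : Q ≤ 1)
    (hG : ∀ U : Submodule K V, (NN k φ U : ℝ) ≤ G * Q^(finrank K U))
    (hB : (Fintype.card K : ℝ)^D + (Fintype.card K : ℝ)^(D+1) * κ * Q +
      (Fintype.card K : ℝ)^(finrank K V) * Q^2 ≤ B * (Fintype.card K : ℝ)^k) :
    ∀ m (U : Submodule K V), finrank K U + 2 * m ≤ D →
      (NN k φ U : ℝ) ≤ G * Q^(finrank K U) * B^m := by
  classical
  set q : ℝ := (Fintype.card K : ℝ) with hq
  have hq1 : (1:ℝ) < q := by
    rw [hq]; exact_mod_cast (one_lt_q (K := K))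
  have hκ0 : 0 ≤ κ := le_trans (Nat.cast_nonneg _) (hκ 0)
  intro m
  induction m with
  | zero =>
    intro U _
    simpa using hG U
  | succ m ih =>
    intro U hU
    have h0 : (NN k φ U : ℝ) * q^k ≤
        ∑ c : V, (NN k φ (U ⊔ span K {c} ⊔ span K {φ c}) : ℝ) := by
      have := dbl k φ U
      rw [hq]
      exact_mod_cast this
    have h1 : ∀ c : V, (NN k φ (U ⊔ span K {c} ⊔ span K {φ c}) : ℝ) ≤
        G * B^m * Q^(finrank K U) * ((if c ∈ U then 1 else 0) +
          Q * (∑ a : K, if sh φ a c ∈ U then 1 else 0) + Q^2) := by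
      intro c
      have d1 := dimUp1 U c
      have d2 := dimUp1 (U ⊔ span K {c}) (φ c)
      have hh := ih (U ⊔ span K {c} ⊔ span K {φ c}) (by omega)
      refine hh.trans ?_
      have hs0 : (0:ℝ) ≤ ∑ a : K, if sh φ a c ∈ U then (1:ℝ) else 0 :=
        Finset.sum_nonneg fun a _ => by split_ifs <;> norm_num
      have e : G * B^m * Q^(finrank K U) * ((if c ∈ U then 1 else 0) +
          Q * (∑ a : K, if sh φ a c ∈ U then 1 else 0) + Q^2) =
          G * (Q^(finrank K U) * ((if c ∈ U then 1 else 0) +
          Q * (∑ a : K, if sh φ a c ∈ U then 1 else 0) + Q^2)) * B^m := by ring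
      rw [e]
      apply mul_le_mul_of_nonneg_right _ (pow_nonneg hB0 m)
      apply mul_le_mul_of_nonneg_left _ hG0
      have mono : ∀ j, finrank K U + j ≤ finrank K (U ⊔ span K {c} ⊔ span K {φ c} : Submodule K V) →
          Q^(finrank K (U ⊔ span K {c} ⊔ span K {φ c} : Submodule K V)) ≤
            Q^(finrank K U) * Q^j := by
        intro j hj
        rw [← pow_add]
        exact pow_le_pow_of_le_one hQ0.le hQ hj
      by_cases hc : c ∈ U
      · have := mono 0 (by
          simpa using Submodule.finrank_mono ((le_sup_left (a := U) (b := span K {c})).trans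
            (le_sup_left (b := span K {φ c}))))
        refine this.trans ?_
        apply mul_le_mul_of_nonneg_left _ (pow_nonneg hQ0.le _)
        rw [if_pos hc, pow_zero]
        have := mul_nonneg hQ0.le hs0
        have := sq_nonneg Q
        linarith
      · by_cases hc2 : φ c ∈ U ⊔ span K {c}
        · have := mono 1 ((dimLt U c hc).trans
            (Submodule.finrank_mono (le_sup_left (b := span K {φ c}))))
          refine this.trans ?_
          apply mul_le_mul_of_nonneg_left _ (pow_nonneg hQ0.le _)
          rw [if_neg hc, pow_one, zero_add]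
          have hs1 : (1:ℝ) ≤ ∑ a : K, if sh φ a c ∈ U then (1:ℝ) else 0 := by
            obtain ⟨u, hu, v, hv, huv⟩ := Submodule.mem_sup.1 hc2
            obtain ⟨a, rfl⟩ := Submodule.mem_span_singleton.1 hv
            have hmem : sh φ a c ∈ U := by
              have : sh φ a c = u := by
                simp [sh, ← huv]
              rw [this]; exact hu
            calc (1:ℝ) = if sh φ a c ∈ U then (1:ℝ) else 0 := by rw [if_pos hmem]
              _ ≤ _ := Finset.single_le_sum
                (f := fun a : K => if sh φ a c ∈ U then (1:ℝ) else 0)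
                (fun a _ => by split_ifs <;> norm_num) (Finset.mem_univ a)
          nlinarith [sq_nonneg Q, mul_le_mul_of_nonneg_left hs1 hQ0.le]
        · have := mono 2 (by
            have e1 := dimLt U c hc
            have e2 := dimLt (U ⊔ span K {c}) (φ c) hc2
            omega)
          refine this.trans ?_
          apply mul_le_mul_of_nonneg_left _ (pow_nonneg hQ0.le _)
          rw [if_neg hc]
          have := mul_nonneg hQ0.le hs0
          linarith
    have h2 : ∑ c : V, (NN k φ (U ⊔ span K {c} ⊔ span K {φ c}) : ℝ) ≤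
        G * B^m * Q^(finrank K U) * (B * q^k) := by
      refine (Finset.sum_le_sum fun c _ => h1 c).trans ?_
      rw [← Finset.mul_sum]
      apply mul_le_mul_of_nonneg_left _
        (mul_nonneg (mul_nonneg hG0 (pow_nonneg hB0 _)) (pow_nonneg hQ0.le _))
      refine le_trans ?_ hB
      rw [Finset.sum_add_distrib, Finset.sum_add_distrib, ← Finset.mul_sum, Finset.sum_comm]
      have c1 : ∀ W : Submodule K V, (∑ c : V, if c ∈ W then (1:ℝ) else 0) = Nat.card W := by
        intro W
        rw [Finset.sum_boole, Nat.card_eq_fintype_card, Fintype.card_subtype]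
      have cU : (Nat.card U : ℝ) ≤ q^D := by
        rw [Module.natCard_eq_pow_finrank (K := K), Nat.card_eq_fintype_card, Nat.cast_pow, ← hq]
        exact pow_le_pow_right₀ hq1.le (by omega)
      have c2 : ∀ a : K, (∑ c : V, if sh φ a c ∈ U then (1:ℝ) else 0) ≤
          κ * q^D := by
        intro a
        have := c1 (U.comap (sh φ a))
        simp only [Submodule.mem_comap] at this
        rw [this]
        have h3 := comap_card (sh φ a) U
        have h4 : (Nat.card (U.comap (sh φ a)) : ℝ) ≤
          (Nat.card (LinearMap.ker (sh φ a)) : ℝ) * (Nat.card U : ℝ) := by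
          exact_mod_cast h3
        refine h4.trans ?_
        exact mul_le_mul (hκ a) cU (Nat.cast_nonneg _) hκ0
      have c3 : (∑ a : K, ∑ c : V, if sh φ a c ∈ U then (1:ℝ) else 0) ≤
          q^(D+1) * κ := by
        refine (Finset.sum_le_sum fun a _ => c2 a).trans (le_of_eq ?_)
        rw [Finset.sum_const, Finset.card_univ, nsmul_eq_mul, ← hq]
        ring
      have c4 : (∑ c : V, Q^2) = q^(finrank K V) * Q^2 := by
        rw [Finset.sum_const, Finset.card_univ, nsmul_eq_mul, Module.card_eq_pow_finrank (K := K),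
          Nat.cast_pow, ← hq]
      rw [c1, c4]
      have := mul_le_mul_of_nonneg_left c3 hQ0.le
      linarith
    have hqk : 0 < q^k := by positivity
    have h3 := h0.trans h2
    have h4 : (NN k φ U : ℝ) * q^k ≤ (G * Q^(finrank K U) * B^(m+1)) * q^k := by
      refine h3.trans (le_of_eq ?_)
      ring
    exact le_of_mul_le_mul_right h4 hqk

end

end Pool.Agent.X286.Co
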