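import Pool.Agent.X286.Co.Inv

namespace Pool.Agent.X286.Co
open Module Submodule

section
variable {K : Type*} [Field K] {n : ℕ}

/-- The monomial map `x ↦ (d i * x (σ⁻¹ i))`. -/
def mono (d : Fin n → Kˣ) (σ : Equiv.Perm (Fin n)) : (Fin n → K) →ₗ[K] (Fin n → K) where
  toFun x := fun i => (d i : K) * x (σ.symm i)
  map_add' x y := by
    funext i
    simp [mul_add]
  map_smul' a x := by
    funext i
    simp only [Pi.smul_apply, smul_eq_mul, RingHom.id_apply]
    ring

open Classical in
/-- coordinates where the monomial map differs from the scalar `μ` -/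
noncomputable def bad (d : Fin n → Kˣ) (σ : Equiv.Perm (Fin n)) (μ : K) : Finset (Fin n) :=
  Finset.univ.filter fun i => σ i ≠ i ∨ (d i : K) ≠ μ

theorem not_bad {d : Fin n → Kˣ} {σ : Equiv.Perm (Fin n)} {μ : K} {i : Fin n}
    (hi : i ∉ bad d σ μ) : σ i = i ∧ (d i : K) = μ := by
  classical
  simp only [bad, Finset.mem_filter, Finset.mem_univ, true_and, not_or, not_not] at hi
  exact hi

theorem symm_fix {σ : Equiv.Perm (Fin n)} {i : Fin n} (h : σ i = i) : σ.symm i = i :=
  (Equiv.symm_apply_eq σ).2 h.symm

theorem sh_apply (d : Fin n → Kˣ) (σ : Equiv.Perm (Fin n)) (μ : K) (x : Fin n → K) (i : Fin n) :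
    sh (mono d σ) μ x i = (d i : K) * x (σ.symm i) - μ * x i := by
  simp [sh, mono]

theorem range_le (d : Fin n → Kˣ) (σ : Equiv.Perm (Fin n)) (μ : K) :
    finrank K (LinearMap.range (sh (mono d σ) μ)) ≤ (bad d σ μ).card := by
  classical
  let f : LinearMap.range (sh (mono d σ) μ) →ₗ[K] (↥(bad d σ μ) → K) :=
    (LinearMap.funLeft K K (fun i : ↥(bad d σ μ) => (i : Fin n))).comp
      (Submodule.subtype _)
  have hf : Function.Injective f := by
    rintro ⟨y, ⟨x, rfl⟩⟩ ⟨y', ⟨x', rfl⟩⟩ h
    apply Subtype.ext
    funext i
    by_cases hi : i ∈ bad d σ μ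
    · exact congrFun h ⟨i, hi⟩
    · have : ∀ z, sh (mono d σ) μ z i = 0 := by
        intro z
        obtain ⟨h1, h2⟩ := not_bad hi
        rw [sh_apply, h2, symm_fix h1, sub_self]
      show sh (mono d σ) μ x i = sh (mono d σ) μ x' i
      rw [this, this]
  have := LinearMap.finrank_le_finrank_of_injective hf
  simpa using this

theorem ker_le (d : Fin n → Kˣ) (σ : Equiv.Perm (Fin n)) (μ : K) :
    (bad d σ μ).card + 3 * finrank K (LinearMap.ker (sh (mono d σ) μ)) ≤ 3 * n := by
  classical
  by_cases hμ : μ = 0
  · have : LinearMap.ker (sh (mono d σ) μ) = ⊥ := by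
      rw [LinearMap.ker_eq_bot']
      intro x hx
      funext j
      have := congrFun hx (σ j)
      rw [sh_apply, hμ] at this
      simpa using this
    rw [this, finrank_bot]
    have := Finset.card_le_univ (bad d σ μ)
    simp only [Fintype.card_fin] at this
    omega
  · obtain ⟨J, hJ, hmax⟩ := Finset.exists_max_image
      ((Finset.univ : Finset (Finset (Fin n))).filter
        (fun J => (∀ i ∈ J, σ i ≠ i) ∧ ∀ i ∈ J, σ i ∉ J)) Finset.card ⟨∅, by simp⟩
    simp only [Finset.mem_filter, Finset.mem_univ, true_and] at hJ hmax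
    obtain ⟨hJ1, hJ2⟩ := hJ
    let M : Finset (Fin n) := Finset.univ.filter fun i => σ i ≠ i
    let F : Finset (Fin n) := Finset.univ.filter fun i => σ i = i ∧ (d i : K) ≠ μ
    have hbad : bad d σ μ ⊆ M ∪ F := by
      intro i hi
      simp only [bad, Finset.mem_filter, Finset.mem_univ, true_and] at hi
      simp only [M, F, Finset.mem_union, Finset.mem_filter, Finset.mem_univ, true_and]
      tauto
    have hM : M ⊆ J ∪ (J.image σ ∪ J.image σ.symm) := by
      intro j hj
      simp only [M, Finset.mem_filter, Finset.mem_univ, true_and] at hj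
      by_contra hcon
      simp only [Finset.mem_union, Finset.mem_image, not_or, not_exists, not_and] at hcon
      obtain ⟨c1, c2, c3⟩ := hcon
      have hins := hmax (insert j J) ⟨?_, ?_⟩
      · rw [Finset.card_insert_of_notMem c1] at hins
        omega
      · intro i hi
        rcases Finset.mem_insert.1 hi with rfl | hi
        · exact hj
        · exact hJ1 i hi
      · intro i hi hi2
        rcases Finset.mem_insert.1 hi with rfl | hi
        · rcases Finset.mem_insert.1 hi2 with h | h
          · exact hj h
          · exact c3 _ h (by simp)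
        · rcases Finset.mem_insert.1 hi2 with h | h
          · exact c2 i hi h
          · exact hJ2 i hi h
    have hMc : M.card ≤ 3 * J.card := by
      calc M.card ≤ _ := Finset.card_le_card hM
        _ ≤ J.card + (J.image σ ∪ J.image σ.symm).card := Finset.card_union_le _ _
        _ ≤ J.card + ((J.image σ).card + (J.image σ.symm).card) :=
          Nat.add_le_add_left (Finset.card_union_le _ _) _
        _ ≤ J.card + (J.card + J.card) :=
          Nat.add_le_add_left (Nat.add_le_add Finset.card_image_le Finset.card_image_le) _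
        _ = _ := by ring
    have hdisj : Disjoint J F := by
      rw [Finset.disjoint_left]
      intro i hi hi2
      simp only [F, Finset.mem_filter, Finset.mem_univ, true_and] at hi2
      exact hJ1 i hi hi2.1
    let f : LinearMap.ker (sh (mono d σ) μ) →ₗ[K] (↥(J ∪ F)ᶜ → K) :=
      (LinearMap.funLeft K K (fun i : ↥(J ∪ F)ᶜ => (i : Fin n))).comp
        (Submodule.subtype _)
    have hf : Function.Injective f := by
      rw [← LinearMap.ker_eq_bot, LinearMap.ker_eq_bot']
      rintro ⟨x, hx⟩ h
      apply Subtype.ext
      have hx' : ∀ i, (d i : K) * x (σ.symm i) - μ * x i = 0 := by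
        intro i
        rw [← sh_apply, LinearMap.mem_ker.1 hx]
        rfl
      have h0 : ∀ i, i ∉ J → i ∉ F → x i = 0 := by
        intro i h1 h2
        have hi : i ∈ (J ∪ F)ᶜ := by
          simp [h1, h2]
        exact congrFun h ⟨i, hi⟩
      have hF : ∀ i ∈ F, x i = 0 := by
        intro i hi
        simp only [F, Finset.mem_filter, Finset.mem_univ, true_and] at hi
        have := hx' i
        rw [symm_fix hi.1, ← sub_mul] at this
        rcases mul_eq_zero.1 this with h | h
        · exact absurd (sub_eq_zero.1 h) hi.2
        · exact h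
      funext i
      show x i = 0
      by_cases h1 : i ∈ J
      · have h2 : x (σ.symm i) = 0 := by
          by_cases h3 : σ.symm i ∈ F
          · exact hF _ h3
          · refine h0 _ (fun h4 => ?_) h3
            have := hJ2 _ h4
            simp at this
            exact this h1
        have := hx' i
        rw [h2, mul_zero, zero_sub, neg_eq_zero] at this
        exact (mul_eq_zero.1 this).resolve_left hμ
      · by_cases h2 : i ∈ F
        · exact hF i h2
        · exact h0 i h1 h2
    have hfin := LinearMap.finrank_le_finrank_of_injective hf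
    have hc : (J ∪ F)ᶜ.card + (J.card + F.card) = n := by
      rw [← Finset.card_union_of_disjoint hdisj, Finset.card_compl_add_card, Fintype.card_fin]
    have hfin2 : finrank K (LinearMap.ker (sh (mono d σ) μ)) ≤ (J ∪ F)ᶜ.card := by
      rwa [Module.finrank_pi, Fintype.card_coe] at hfin
    have hb := (Finset.card_le_card hbad).trans (Finset.card_union_le _ _)
    omega

theorem scalar_of {d : Fin n → Kˣ} {σ : Equiv.Perm (Fin n)} {μ : K} (h : bad d σ μ = ∅) :
    mono d σ = μ • LinearMap.id := by
  apply LinearMap.ext
  intro x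
  funext i
  obtain ⟨h1, h2⟩ := not_bad (d := d) (σ := σ) (μ := μ) (i := i) (by rw [h]; simp)
  show (d i : K) * x (σ.symm i) = μ * x i
  rw [h2, symm_fix h1]

end

end Pool.Agent.X286.Co
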