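import Pool.Agent.X286.Co.Mono

namespace Pool.Agent.X286.Co
open Module Submodule

attribute [local instance] finSub

section
variable {K : Type*} [Field K] [Fintype K] {n : ℕ}

/-- number of codes of dimension `k` -/
noncomputable def numC (K : Type*) [Field K] (n k : ℕ) : ℕ :=
  Nat.card {C : Submodule K (Fin n → K) // finrank K C = k}

/-- number of codes mapped into themselves -/
noncomputable def numI (k : ℕ) (φ : (Fin n → K) →ₗ[K] (Fin n → K)) : ℕ :=
  Nat.card {C : Submodule K (Fin n → K) // finrank K C = k ∧ C.map φ ≤ C}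

theorem caseA (k f : ℕ) (h1 : 12 * f ≤ k) (h2 : 12 * f + k ≤ n) (d : Fin n → Kˣ)
    (σ : Equiv.Perm (Fin n)) (μ : K) (ht : (bad d σ μ).card ≤ 3 * f) :
    (numI k (mono d σ) : ℝ) ≤
      numC K n k * (((Fintype.card K : ℝ)^f)⁻¹)^(bad d σ μ).card := by
  classical
  set q := Fintype.card K with hq
  have hq1 : 1 < q := one_lt_q
  set T := sh (mono d σ) μ with hT
  set r := finrank K (LinearMap.range T) with hr
  set t := (bad d σ μ).card with htt
  have hrt : r ≤ t := range_le d σ μ
  have hrn := LinearMap.finrank_range_add_finrank_ker T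
  have hn : finrank K (Fin n → K) = n := by simp
  have htr : t ≤ 3 * r := by
    have := ker_le d σ μ
    rw [← hT] at this
    rw [hn] at hrn
    omega
  have hA := abound (K := K) (V := Fin n → K) k ((r+1)/2) (12*f) T (by omega) h1 (by omega)
  rw [← hr, ← hq] at hA
  have hI : numI k (mono d σ) ≤ Nat.card {C : Submodule K (Fin n → K) //
      finrank K C = k ∧ C.map T ≤ C} := by
    refine Nat.card_le_card_of_injective (fun C => ⟨C.1, C.2.1, ?_⟩) ?_
    · rintro _ ⟨c, hc, rfl⟩
      have : T c = mono d σ c - μ • c := by simp [hT, sh]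
      rw [this]
      exact sub_mem (C.2.2 ⟨c, hc, rfl⟩) (smul_mem _ _ hc)
    · intro C C' h
      exact Subtype.ext (Subtype.mk.inj h)
  have hexp : r * r + f * t ≤ 12 * f * ((r+1)/2) := by
    have e1 : r * r ≤ 3 * f * r := Nat.mul_le_mul_right _ (hrt.trans ht)
    have e2 : f * t ≤ f * (3 * r) := Nat.mul_le_mul_left _ htr
    have e3 : 6 * f * r ≤ 6 * f * (2 * ((r+1)/2)) := Nat.mul_le_mul_left _ (by omega)
    nlinarith
  have hfin : numI k (mono d σ) * q^(f*t) ≤ numC K n k := by
    have hpos : 0 < q^(r*r) := pow_pos (by omega) _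
    refine Nat.le_of_mul_le_mul_left ?_ hpos
    calc q^(r*r) * (numI k (mono d σ) * q^(f*t)) = numI k (mono d σ) * q^(r*r+f*t) := by
          rw [pow_add]; ring
      _ ≤ numI k (mono d σ) * q^(12 * f * ((r+1)/2)) :=
          Nat.mul_le_mul_left _ (Nat.pow_le_pow_right (by omega) hexp)
      _ ≤ _ := Nat.mul_le_mul_right _ hI
      _ ≤ _ := hA
  have hq0 : (0:ℝ) < (q:ℝ) := by exact_mod_cast (by omega : 0 < q)
  rw [inv_pow, ← pow_mul, ← div_eq_mul_inv, le_div_iff₀ (by positivity)]
  exact_mod_cast hfin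

theorem caseB (k m : ℕ) (h1 : 4 * m + 1 ≤ k) (h2 : 4 * m + 1 + k ≤ n) (d : Fin n → Kˣ)
    (σ : Equiv.Perm (Fin n)) (ht : ∀ μ : K, 3 * (4 * m + 1) < (bad d σ μ).card) :
    (numI k (mono d σ) : ℝ) ≤
      numC K n k * (3 * ((Fintype.card K : ℝ)^(2*m))⁻¹)^m := by
  classical
  have hn : finrank K (Fin n → K) = n := by simp
  have hq1 : (1:ℝ) < (Fintype.card K : ℝ) := by exact_mod_cast (one_lt_q (K := K))
  have hq0 : (0:ℝ) < (Fintype.card K : ℝ) := by linarith
  have key := bbound (K := K) (V := Fin n → K) k (mono d σ)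
    ((Fintype.card K : ℝ)^(n-(4*m+1))) (fun c => by
      rw [Module.natCard_eq_pow_finrank (K := K), Nat.card_eq_fintype_card, Nat.cast_pow]
      apply pow_le_pow_right₀ hq1.le
      have := ker_le d σ c
      have := ht c
      unfold sh at *
      omega) (2*m) (numC K n k) (((Fintype.card K : ℝ)^(n-k))⁻¹)
    (3 * ((Fintype.card K : ℝ)^(2*m))⁻¹) (Nat.cast_nonneg _) (by positivity) (by positivity)
    (inv_le_one_of_one_le₀ (one_le_pow₀ hq1.le)) (fun U => by
      have g1 := G1 (K := K) k (finrank K U) (by omega) U le_rfl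
      rw [hn] at g1
      have g2 : NN k (mono d σ) U ≤
          Nat.card {C : Submodule K (Fin n → K) // finrank K C = k ∧ U ≤ C} := by
        refine Nat.card_le_card_of_injective (fun C => ⟨C.1, C.2.1, C.2.2.2⟩) ?_
        intro C C' h
        exact Subtype.ext (Subtype.mk.inj h)
      have g3 := (Nat.mul_le_mul_right _ g2).trans g1
      rw [inv_pow, ← pow_mul, ← div_eq_mul_inv, le_div_iff₀ (by positivity), mul_comm (n-k)]
      exact_mod_cast g3) (by
      rw [hn]
      set q : ℝ := (Fintype.card K : ℝ) with hq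
      have e1 : q^(2*m) ≤ q^k * (q^(2*m))⁻¹ := by
        rw [← div_eq_mul_inv, le_div_iff₀ (by positivity), ← pow_add]
        exact pow_le_pow_right₀ hq1.le (by omega)
      have e2 : q^(2*m+1) * q^(n-(4*m+1)) * (q^(n-k))⁻¹ ≤ q^k * (q^(2*m))⁻¹ := by
        rw [← div_eq_mul_inv, ← div_eq_mul_inv, div_le_div_iff₀ (by positivity) (by positivity),
          ← pow_add, ← pow_add, ← pow_add]
        exact pow_le_pow_right₀ hq1.le (by omega)
      have e3 : q^n * ((q^(n-k))⁻¹)^2 ≤ q^k * (q^(2*m))⁻¹ := by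
        rw [inv_pow, ← div_eq_mul_inv, ← div_eq_mul_inv,
          div_le_div_iff₀ (by positivity) (by positivity), ← pow_mul, ← pow_add, ← pow_add]
        exact pow_le_pow_right₀ hq1.le (by omega)
      linarith) m ⊥ (by simp)
  have hN : NN k (mono d σ) ⊥ = numI k (mono d σ) := by
    unfold NN numI
    simp
  rw [hN, finrank_bot, pow_zero, mul_one] at key
  exact key

open Classical in
/-- the weight of a pair function -/
noncomputable def wt (x : ℝ) (μ : K) (p : Fin n → K × Fin n) : ℝ :=
  ∏ i, if p i = (μ, i) then 1 else x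

theorem sum_wt (x : ℝ) (μ : K) :
    ∑ p : Fin n → K × Fin n, wt x μ p = (1 + ((Fintype.card K : ℝ) * n - 1) * x)^n := by
  classical
  unfold wt
  have h := Finset.prod_univ_sum (fun _ : Fin n => (Finset.univ : Finset (K × Fin n)))
    (fun i y => if y = (μ, i) then (1:ℝ) else x)
  rw [Fintype.piFinset_univ] at h
  rw [← h]
  have h2 : ∀ i : Fin n, ∑ y : K × Fin n, (if y = (μ, i) then (1:ℝ) else x) =
      1 + ((Fintype.card K : ℝ) * n - 1) * x := by
    intro i
    have e : ∀ y : K × Fin n, (if y = (μ, i) then (1:ℝ) else x) =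
        x + (if y = (μ, i) then (1 - x) else 0) := by
      intro y
      split_ifs <;> ring
    simp only [e, Finset.sum_add_distrib, Finset.sum_ite_eq', Finset.mem_univ, if_true,
      Finset.sum_const, Finset.card_univ, Fintype.card_prod, Fintype.card_fin, nsmul_eq_mul,
      Nat.cast_mul]
    ring
  rw [Finset.prod_congr rfl fun i _ => h2 i, Finset.prod_const, Finset.card_univ,
    Fintype.card_fin]

/-- pair function of a monomial map -/
def io (y : (Fin n → Kˣ) × Equiv.Perm (Fin n)) : Fin n → K × Fin n :=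
  fun i => ((y.1 i : K), y.2 i)

omit [Fintype K] in
theorem io_inj : Function.Injective (io (K := K) (n := n)) := by
  rintro ⟨d, σ⟩ ⟨d', σ'⟩ h
  have h1 : d = d' := by
    funext i
    exact Units.ext (congrArg Prod.fst (congrFun h i))
  have h2 : σ = σ' := by
    apply Equiv.ext
    intro i
    exact congrArg Prod.snd (congrFun h i)
  rw [h1, h2]

omit [Fintype K] in
theorem wt_io (x : ℝ) (μ : K) (y : (Fin n → Kˣ) × Equiv.Perm (Fin n)) :
    wt x μ (io y) = x^(bad y.1 y.2 μ).card := by
  classical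
  unfold wt
  rw [Finset.prod_ite, Finset.prod_const_one, one_mul, Finset.prod_const]
  congr 2
  ext i
  simp only [io, bad, Finset.mem_filter, Finset.mem_univ, true_and, Prod.mk.injEq, not_and_or]
  tauto

open Classical in
/-- total weight -/
noncomputable def HH (x β : ℝ) (p : Fin n → K × Fin n) : ℝ :=
  (∑ μ : K, if p = (fun i => (μ, i)) then 0 else wt x μ p) + β

theorem sum_HH (x β : ℝ) (hx : 0 ≤ x) : ∑ p : Fin n → K × Fin n, HH x β p ≤
    (Fintype.card K : ℝ) * ((1 + (Fintype.card K : ℝ) * n * x)^n - 1) +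
      ((Fintype.card K : ℝ) * n)^n * β := by
  classical
  unfold HH
  rw [Finset.sum_add_distrib, Finset.sum_comm]
  have h1 : ∀ μ : K, ∑ p : Fin n → K × Fin n, (if p = (fun i => (μ, i)) then 0 else wt x μ p) ≤
      (1 + (Fintype.card K : ℝ) * n * x)^n - 1 := by
    intro μ
    have e : ∀ p : Fin n → K × Fin n, (if p = (fun i => (μ, i)) then 0 else wt x μ p) =
        wt x μ p - (if p = (fun i => (μ, i)) then 1 else 0) := by
      intro p
      split_ifs with h
      · subst h
        simp [wt]
      · ring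
    simp only [e, Finset.sum_sub_distrib, Finset.sum_ite_eq', Finset.mem_univ, if_true]
    rw [sum_wt]
    have : (1 + ((Fintype.card K : ℝ) * n - 1) * x)^n ≤ (1 + (Fintype.card K : ℝ) * n * x)^n := by
      rcases Nat.eq_zero_or_pos n with h0 | h0
      · subst h0; simp
      · apply pow_le_pow_left₀
        · have h3 : (1:ℝ) ≤ (Fintype.card K : ℝ) * n := by
            have := Nat.mul_pos (Fintype.card_pos (α := K)) h0
            exact_mod_cast this
          have := mul_nonneg (sub_nonneg.2 h3) hx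
          linarith
        · linarith
    linarith
  have h2 : ∑ p : Fin n → K × Fin n, β = ((Fintype.card K : ℝ) * n)^n * β := by
    rw [Finset.sum_const, Finset.card_univ, nsmul_eq_mul]
    simp
  rw [h2]
  refine add_le_add_left ?_ _ |>.trans le_rfl
  refine (Finset.sum_le_sum fun μ _ => h1 μ).trans (le_of_eq ?_)
  rw [Finset.sum_const, Finset.card_univ, nsmul_eq_mul]

/-- number of bad codes -/
noncomputable def numBad (K : Type*) [Field K] (n k : ℕ) : ℕ :=
  Nat.card {C : Submodule K (Fin n → K) // finrank K C = k ∧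
    ¬ ∀ (d : Fin n → Kˣ) (σ : Equiv.Perm (Fin n)), C.map (mono d σ) = C →
      ∃ c : Kˣ, mono d σ = (c : K) • LinearMap.id}

theorem count (k m : ℕ) (h1 : 12 * (4 * m + 1) ≤ k) (h2 : 12 * (4 * m + 1) + k ≤ n) :
    (numBad K n k : ℝ) ≤ numC K n k *
      ((Fintype.card K : ℝ) * ((1 + (Fintype.card K : ℝ) * n *
        ((Fintype.card K : ℝ)^(4*m+1))⁻¹)^n - 1) +
      ((Fintype.card K : ℝ) * n)^n * (3 * ((Fintype.card K : ℝ)^(2*m))⁻¹)^m) := by
  classical
  set q : ℝ := (Fintype.card K : ℝ) with hq
  have hq1 : (1:ℝ) < q := by rw [hq]; exact_mod_cast (one_lt_q (K := K))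
  set x : ℝ := (q^(4*m+1))⁻¹ with hx
  have hx0 : 0 ≤ x := by positivity
  set β : ℝ := (3 * (q^(2*m))⁻¹)^m with hβ
  have hβ0 : 0 ≤ β := by positivity
  let NS : Finset ((Fin n → Kˣ) × Equiv.Perm (Fin n)) :=
    Finset.univ.filter fun y => ¬ ∃ c : Kˣ, mono y.1 y.2 = (c : K) • LinearMap.id
  have hwt0 : ∀ μ (p : Fin n → K × Fin n), 0 ≤ wt x μ p := by
    intro μ p
    apply Finset.prod_nonneg
    intro i _
    split_ifs
    · exact zero_le_one
    · exact hx0
  have hHH0 : ∀ p : Fin n → K × Fin n, 0 ≤ HH x β p := by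
    intro p
    apply add_nonneg _ hβ0
    apply Finset.sum_nonneg
    intro μ _
    split_ifs
    · exact le_rfl
    · exact hwt0 μ p
  -- union bound
  have s1 : numBad K n k ≤ ∑ y : NS, numI k (mono y.1.1 y.1.2) := by
    unfold numI
    rw [← Nat.card_sigma]
    have hex : ∀ C : {C : Submodule K (Fin n → K) // finrank K C = k ∧
        ¬ ∀ (d : Fin n → Kˣ) (σ : Equiv.Perm (Fin n)), C.map (mono d σ) = C →
        ∃ c : Kˣ, mono d σ = (c : K) • LinearMap.id}, ∃ y : NS,
        C.1.map (mono y.1.1 y.1.2) ≤ C.1 := by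
      rintro ⟨C, hC, hC2⟩
      push Not at hC2
      obtain ⟨d, σ, h3, h4⟩ := hC2
      refine ⟨⟨(d, σ), ?_⟩, le_of_eq h3⟩
      simp only [NS, Finset.mem_filter, Finset.mem_univ, true_and, not_exists]
      exact h4
    choose F hF using hex
    refine Nat.card_le_card_of_injective (fun C => ⟨F C, ⟨C.1, C.2.1, hF C⟩⟩) ?_
    intro C C' h
    have h3 := (Sigma.mk.inj_iff.1 h)
    have key : ∀ (y y' : NS) (a : {C : Submodule K (Fin n → K) // finrank K C = k ∧
        C.map (mono y.1.1 y.1.2) ≤ C}) (b : {C : Submodule K (Fin n → K) // finrank K C = k ∧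
        C.map (mono y'.1.1 y'.1.2) ≤ C}), y = y' → HEq a b → a.1 = b.1 := by
      intro y y' a b h h'
      subst h
      rw [eq_of_heq h']
    exact Subtype.ext (key _ _ _ _ h3.1 h3.2)
  have s2 : ∀ y ∈ NS, (numI k (mono y.1 y.2) : ℝ) ≤ numC K n k * HH x β (io y) := by
    intro y hy
    obtain ⟨d, σ⟩ := y
    simp only [NS, Finset.mem_filter, Finset.mem_univ, true_and, not_exists] at hy
    by_cases hc : ∃ μ : K, (bad d σ μ).card ≤ 3 * (4 * m + 1)
    · obtain ⟨μ, hμ⟩ := hc
      have hA := caseA (K := K) k (4*m+1) h1 h2 d σ μ hμ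
      refine hA.trans ?_
      apply mul_le_mul_of_nonneg_left _ (Nat.cast_nonneg _)
      have hne : io (d, σ) ≠ (fun i => (μ, i)) := by
        intro h
        have hemp : bad d σ μ = ∅ := by
          rw [Finset.eq_empty_iff_forall_notMem]
          intro i hi
          simp only [bad, Finset.mem_filter, Finset.mem_univ, true_and] at hi
          have := congrFun h i
          simp only [io, Prod.mk.injEq] at this
          rcases hi with hi | hi
          · exact hi this.2
          · exact hi this.1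
        have h0 : 0 < n := by omega
        have h5 := congrFun h ⟨0, h0⟩
        simp only [io, Prod.mk.injEq] at h5
        apply hy (d ⟨0, h0⟩)
        rw [scalar_of hemp, h5.1]
      unfold HH
      have : x^(bad d σ μ).card = if io (d, σ) = (fun i => (μ, i)) then 0 else
          wt x μ (io (d, σ)) := by
        rw [if_neg hne, wt_io]
      have h6 : x^(bad d σ μ).card ≤ ∑ μ : K, if io (d, σ) = (fun i => (μ, i)) then 0 else
          wt x μ (io (d, σ)) := by
        rw [this]
        apply Finset.single_le_sum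
          (f := fun μ : K => if io (d, σ) = (fun i => (μ, i)) then 0 else wt x μ (io (d, σ)))
          _ (Finset.mem_univ μ)
        intro a _
        show (0:ℝ) ≤ if io (d, σ) = (fun i => (a, i)) then 0 else wt x a (io (d, σ))
        split_ifs
        · exact le_rfl
        · exact hwt0 _ _
      linarith
    · push Not at hc
      have hB := caseB (K := K) k m (by omega) (by omega) d σ hc
      refine hB.trans ?_
      apply mul_le_mul_of_nonneg_left _ (Nat.cast_nonneg _)
      unfold HH
      have : (0:ℝ) ≤ ∑ μ : K, if io (d, σ) = (fun i => (μ, i)) then 0 else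
          wt x μ (io (d, σ)) := by
        apply Finset.sum_nonneg
        intro μ _
        split_ifs
        · exact le_rfl
        · exact hwt0 _ _
      linarith
  have s3 : (numBad K n k : ℝ) ≤ ∑ y ∈ NS, (numI k (mono y.1 y.2) : ℝ) := by
    have : ((∑ y : NS, numI k (mono y.1.1 y.1.2) : ℕ) : ℝ) =
        ∑ y ∈ NS, (numI k (mono y.1 y.2) : ℝ) := by
      push_cast
      exact Finset.sum_coe_sort NS (fun y => (numI k (mono y.1 y.2) : ℝ))
    rw [← this]
    exact_mod_cast s1
  calc (numBad K n k : ℝ) ≤ _ := s3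
    _ ≤ ∑ y ∈ NS, numC K n k * HH x β (io y) := Finset.sum_le_sum s2
    _ = numC K n k * ∑ y ∈ NS, HH x β (io y) := by rw [Finset.mul_sum]
    _ ≤ _ := by
      apply mul_le_mul_of_nonneg_left _ (Nat.cast_nonneg _)
      refine le_trans ?_ (sum_HH x β hx0)
      calc ∑ y ∈ NS, HH x β (io y) = ∑ p ∈ NS.image io, HH x β p := by
            rw [Finset.sum_image (fun a _ b _ h => io_inj h)]
        _ ≤ ∑ p : Fin n → K × Fin n, HH x β p :=
            Finset.sum_le_sum_of_subset_of_nonneg (Finset.subset_univ _) (fun p _ _ => hHH0 p)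

end

end Pool.Agent.X286.Co
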